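import Mathlib

namespace Pool.Agent.Results.MP_5c5fd6_lc.No

open MeasureTheory

/-- position at the start of leg `i` -/
def pos (x : ℕ → ℝ) : ℕ → ℝ
  | 0 => 0
  | i + 1 => (-1) ^ i * x i

/-- time at the start of leg `i` -/
def start (d : ℝ) (x : ℕ → ℝ) : ℕ → ℝ
  | 0 => 0
  | i + 1 => start d x i + |pos x (i + 1) - pos x i| + d

/-- first time at which the searcher is at `H` -/
noncomputable def cost (d : ℝ) (x : ℕ → ℝ) (H : ℝ) : ENNReal :=
  ⨅ (i : ℕ) (_ : H ∈ Set.uIcc (pos x i) (pos x (i + 1))),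
    ENNReal.ofReal (start d x i + |H - pos x i|)

noncomputable def V (d : ℝ) : ENNReal :=
  ⨅ (x : ℕ → ℝ) (_ : ∀ i, 0 < x i), ⨆ (h : Measure ℝ) (_ : IsProbabilityMeasure h)
    (_ : ∫⁻ H, ENNReal.ofReal |H| ∂h ≤ 1), ∫⁻ H, cost d x H ∂h

theorem start_eq (d : ℝ) (x : ℕ → ℝ) (hx : ∀ i, 0 < x i) (i : ℕ) :
    start d x (i + 1) = ∑ j ∈ Finset.range (i + 1), (2 * x j + d) - x i := by
  induction i with
  | zero => simp [start, pos, abs_of_pos (hx 0)]; ring
  | succ i ih =>
    have : |pos x (i + 1 + 1) - pos x (i + 1)| = x (i + 1) + x i := by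
      have : pos x (i + 1 + 1) - pos x (i + 1) = (-1) ^ (i + 1) * (x (i + 1) + x i) := by
        simp only [pos, pow_succ]; ring
      rw [this, abs_mul, abs_pow, abs_neg, abs_one, one_pow, one_mul,
        abs_of_pos (add_pos (hx _) (hx _))]
    rw [start, ih, this, Finset.sum_range_succ _ (i + 1)]
    ring

theorem bound (d r : ℝ) (hd : 0 < d) (hr : 1 < r) (H : ℝ) :
    cost d (fun i => d / 2 * (r ^ (i + 1) - 1)) H ≤
      ENNReal.ofReal ((1 + 2 * r ^ 2 / (r - 1)) * |H| + r * d) := by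
  set x : ℕ → ℝ := fun i => d / 2 * (r ^ (i + 1) - 1) with hxd
  have hx : ∀ i, 0 < x i := fun i =>
    mul_pos (half_pos hd) (sub_pos.2 (one_lt_pow₀ hr (by omega)))
  have hr1 : 0 < r - 1 := sub_pos.2 hr
  have hK : 0 ≤ 2 * r ^ 2 / (r - 1) := by positivity
  have hs : ∀ i, ∑ j ∈ Finset.range (i + 1), (2 * x j + d) = d * r * (r ^ (i + 1) - 1) / (r - 1) := by
    intro i
    induction i with
    | zero => simp only [x, Finset.sum_range_succ, Finset.sum_range_zero]; field_simp; ring
    | succ i ih => rw [Finset.sum_range_succ, ih]; simp only [x]; field_simp; ring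
  have hex : ∃ i : ℕ, 0 ≤ (-1) ^ i * H ∧ |H| ≤ x i := by
    have : Filter.Tendsto x Filter.atTop Filter.atTop :=
      (Filter.tendsto_atTop_add_const_right _ (-1) ((tendsto_pow_atTop_atTop_of_one_lt hr).comp
        (Filter.tendsto_add_atTop_nat 1))).const_mul_atTop (half_pos hd)
    obtain ⟨N, hN⟩ := Filter.eventually_atTop.1 (this.eventually_ge_atTop |H|)
    rcases le_total 0 H with c | c
    · exact ⟨2 * N, by simpa using c, hN _ (by omega)⟩
    · exact ⟨2 * N + 1, by simpa [pow_succ] using c, hN _ (by omega)⟩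
  classical
  obtain ⟨h1, h2⟩ := Nat.find_spec hex
  have hmin := fun j => Nat.find_min hex (m := j)
  generalize Nat.find hex = i at h1 h2 hmin
  have hH := abs_nonneg H
  have key : H ∈ Set.uIcc (pos x i) (pos x (i + 1)) ∧
      start d x i + |H - pos x i| ≤ (1 + 2 * r ^ 2 / (r - 1)) * |H| + r * d := by
    rcases i with _ | i
    · simp only [pow_zero, one_mul] at h1
      rw [abs_of_nonneg h1] at h2
      refine ⟨Set.mem_uIcc.2 (Or.inl (by simpa [pos] using ⟨h1, h2⟩)), ?_⟩
      simp only [start, pos, sub_zero]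
      have := mul_nonneg hK hH
      have := mul_pos (zero_lt_one.trans hr) hd
      nlinarith
    · have e : |H - pos x (i + 1)| = |H| + x i ∧ H ∈ Set.uIcc (pos x (i + 1)) (pos x (i + 1 + 1)) := by
        have := hx i
        rcases neg_one_pow_eq_or ℝ i with c | c <;>
          simp only [pos, pow_succ, c, Set.mem_uIcc] at h1 ⊢
        · have h3 : H ≤ 0 := by linarith
          rw [abs_of_nonpos h3] at h2 ⊢
          rw [abs_of_nonpos (by linarith)]
          exact ⟨by ring, Or.inr ⟨by linarith, by linarith⟩⟩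
        · have h3 : 0 ≤ H := by linarith
          rw [abs_of_nonneg h3] at h2 ⊢
          rw [abs_of_nonneg (by linarith)]
          exact ⟨by ring, Or.inl ⟨by linarith, by linarith⟩⟩
      refine ⟨e.2, ?_⟩
      rw [e.1, start_eq d x hx, hs]
      have h4 : d * r * (r ^ (i + 1) - 1) / (r - 1) ≤ 2 * r ^ 2 / (r - 1) * |H| + r * d := by
        rcases i with _ | i
        · have := mul_nonneg hK hH
          have : d * r * (r ^ (0 + 1) - 1) / (r - 1) = r * d := by field_simp; ring
          linarith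
        · have h5 : x i < |H| := by
            by_contra hc
            exact hmin i (by omega) ⟨by simpa [pow_succ] using h1, not_lt.1 hc⟩
          have : d * r * (r ^ (i + 1 + 1) - 1) / (r - 1) =
              2 * r ^ 2 / (r - 1) * x i + r * d * ((r ^ 2 - 1) - r * (r - 1) - (r - 1) + (r - 1)) /
                (r - 1) := by
            simp only [x]; field_simp; ring
          have h6 : r * d * ((r ^ 2 - 1) - r * (r - 1) - (r - 1) + (r - 1)) / (r - 1) = r * d := by
            field_simp; ring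
          have := mul_le_mul_of_nonneg_left h5.le hK
          linarith
      linarith
  exact iInf₂_le_of_le i key.1 (ENNReal.ofReal_le_ofReal key.2)

theorem V_le (d r : ℝ) (hd : 0 < d) (hr : 1 < r) :
    V d ≤ ENNReal.ofReal (1 + 2 * r ^ 2 / (r - 1) + r * d) := by
  have hr1 : 0 < r - 1 := sub_pos.2 hr
  have hK : 0 ≤ 1 + 2 * r ^ 2 / (r - 1) := by positivity
  have hrd : 0 ≤ r * d := by positivity
  refine iInf₂_le_of_le (fun i => d / 2 * (r ^ (i + 1) - 1)) (fun i =>
    mul_pos (half_pos hd) (sub_pos.2 (one_lt_pow₀ hr (by omega)))) ?_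
  refine iSup₂_le fun h _ => iSup_le fun hh => (lintegral_mono (bound d r hd hr)).trans ?_
  simp only [ENNReal.ofReal_add (mul_nonneg hK (abs_nonneg _)) hrd, ENNReal.ofReal_mul hK]
  rw [lintegral_add_right _ measurable_const, lintegral_const_mul' _ _ ENNReal.ofReal_ne_top,
    lintegral_const, measure_univ, mul_one, ENNReal.ofReal_add hK hrd]
  gcongr
  simpa using mul_le_mul_right hh _

theorem result (d : ℝ) (hd : 0 < d) : V d < ENNReal.ofReal (9 + 2 * d) := by
  obtain ⟨e, he, h1, h2⟩ : ∃ e : ℝ, 0 < e ∧ e ≤ 1 / 2 ∧ e ≤ d / 8 :=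
    ⟨min (1 / 2) (d / 8), by positivity, min_le_left _ _, min_le_right _ _⟩
  refine (V_le d (2 - e) hd (by linarith)).trans_lt
    ((ENNReal.ofReal_lt_ofReal_iff (by positivity)).2 ?_)
  have h3 : 2 * (2 - e) ^ 2 / (2 - e - 1) ≤ 8 + 4 * e ^ 2 := by
    rw [div_le_iff₀ (by linarith)]
    nlinarith [mul_nonneg (sq_nonneg e) (show 0 ≤ 1 / 2 - e by linarith)]
  nlinarith [mul_pos he hd]

end Pool.Agent.Results.MP_5c5fd6_lc.No
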